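import Pool.Agent.Q194.GC.Fin

/-!
# No sign function realises the Gaussian copula correlation function for `p ≠ 1/2`

For every `p ∈ (0, 1)` with `p ≠ 1/2` and every Borel function `χ : ℝ → {-1, 1}` there is a
correlation `ρ` in `(0, 1]` for which `E[χ(X) χ(Y)] ≠ ψ(p, p; ρ)`.  So the answer to the question
is negative.  (`Q194.GC.H`, `Q194.GC.cst`, `Q194.GC.psi`, `Q194.GC.corr` are the normalised Hermite
polynomials, the constant `c(p)`, the function `ψ(p, p; ·)` and the function `h_χ`.)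
-/

namespace Pool.Agent.Results.MP_1b6454_pr.OnlyGrothendieck

open MeasureTheory ProbabilityTheory Set Q194.GC

theorem result (p : ℝ) (hp0 : 0 < p) (hp1 : p < 1) (hp : p ≠ 1 / 2)
    (a : ℝ) (_ha : cdf (gaussianReal 0 1) a = p)
    (χ : ℝ → ℝ) (hχ : Measurable χ) (hsign : ∀ x, χ x = 1 ∨ χ x = -1) :
    ∃ ρ ∈ Ioc (0 : ℝ) 1, corr χ ρ ≠ psi p a ρ :=
  main hp0 hp1 hp hχ hsign

end Pool.Agent.Results.MP_1b6454_pr.OnlyGrothendieck
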